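import Pool.Agent.GRA.StmtsM
import Pool.Agent.Helper64_FR.LOW

/-!
# Squad GRA (MP_3b0ba7_pr), row MCP: dichotomy for the components
-/

set_option autoImplicit false

open MeasureTheory Matrix Finset
open scoped ComplexConjugate

namespace Pool.Agent.GRA.H83

open Pool.Agent.Helper64_FR Pool.Agent.UTR Pool.Agent.BSE Pool.Agent.GRA

theorem star_EE {n : ℕ} (i j : Fin n) : star (EE i j : Matrix (Fin n) (Fin n) ℂ) = EE j i := by
  rw [Matrix.star_eq_conjTranspose, Matrix.conjTranspose_single, star_one]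

/-- the energy of `E_ba` -/
theorem inner_Kp {n : ℕ} {σ : URep n}
    {D : Matrix (Fin n) (Fin n) ℂ →ₗ[ℂ] (σ.Sp →L[ℂ] σ.Sp)} (hD : IsDer σ D) (a b : Fin n)
    (f : σ.Sp) : (inner ℂ f (Kp σ D a b f) : ℂ) = ((‖D (EE b a) f‖ ^ 2 : ℝ) : ℂ) := by
  have h1 : D (EE a b) = star (D (EE b a)) := by rw [hD.star_eq, star_EE]
  show (inner ℂ f (D (EE a b) (D (EE b a) f)) : ℂ) = _
  rw [h1, ContinuousLinearMap.star_eq_adjoint, ContinuousLinearMap.adjoint_inner_right,
    inner_self_eq_norm_sq_to_K]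
  push_cast
  rfl

theorem mcp (ksp : KSPStmt) (kw1 : KW1Stmt) (kw2 : KW2Stmt) (kmb : KMBStmt) (msh : MSHStmt)
    (mk6 : MK6Stmt) (mca : MCAStmt) : MCPStmt := by
  intro p hp hMF σ D C hirr hD hC f hf hs hf0
  by_cases hW : W2 σ D
  · exact Or.inl hW
  right
  have hw : ∃ (ν : Fin p → ℝ) (v : σ.Sp), v ≠ 0 ∧ wt σ D ν v ∧ 3 ≤ ∑ i, max (ν i) 0 := by
    unfold W2 at hW
    push Not at hW
    obtain ⟨ν, v, h1, h2, h3⟩ := hW
    exact ⟨ν, v, h1, h2, h3⟩
  have hp3 : (3 : ℝ) ≤ p := by exact_mod_cast hp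
  have hp0 : (0 : ℝ) < p := by linarith
  have hfn : 0 < ‖f‖ ^ 2 := by
    have := norm_pos_iff.2 hf0
    positivity
  suffices h : 6 * (p : ℝ) + 6 ≤ C ∧ ∀ a b : Fin p, a ≠ b →
      (1 + dl p) * ‖f‖ ^ 2 ≤ ((p : ℝ) - 1) * ‖f - σ.P {a, b} f‖ ^ 2 from ⟨h.1, hw, h.2⟩
  by_cases hN : NSph σ
  · obtain ⟨h1, h2⟩ := hMF σ D C hirr hN hD hC f hf hs hf0
    refine ⟨h1, fun a b hab => ?_⟩
    have h3 := h2 a b hab
    have h4 : dl p ≤ 1 / (2 * (p : ℝ) - 5) := (min_le_right _ _).trans (min_le_left _ _)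
    have h5 : 0 < 2 * (p : ℝ) - 5 := by linarith
    have h6 : (1 + 1 / (2 * (p : ℝ) - 5)) * ‖f‖ ^ 2 ≤
        ((p : ℝ) - 1) * ‖f - σ.P {a, b} f‖ ^ 2 := by
      have h7 : 1 + 1 / (2 * (p : ℝ) - 5) = (2 * p - 4) / (2 * p - 5) := by
        rw [eq_div_iff h5.ne', add_mul, one_mul, div_mul_cancel₀ _ h5.ne']
        ring
      rw [h7, div_mul_eq_mul_div, div_le_iff₀ h5]
      linarith
    exact (mul_le_mul_of_nonneg_right (by linarith) hfn.le).trans h6
  · obtain ⟨k, hk⟩ := ksp p (by omega) σ hirr hN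
    obtain ⟨ν, v, hv0, hv, hν⟩ := hw
    have hk3 : 3 ≤ k := by
      have h1 := kw1 p k σ D hD hk ν v hv0 hv
      have h2 : (3 : ℝ) ≤ k := hν.trans h1
      exact_mod_cast h2
    obtain ⟨hC1, -⟩ := kw2 p k σ D C hD hC hk
    rcases hk3.eq_or_lt with h3 | h4
    · -- `k = 3`
      subst h3
      have hC2 : 6 * (p : ℝ) + 12 ≤ C := by
        push_cast at hC1
        linarith
      refine ⟨by linarith, fun a b hab => ?_⟩
      obtain ⟨m1, m2, -, -, -, -⟩ := msh p σ D hD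
      have w0 := (m2 f).1 hf
      have w4 := m1 _ _ a b (m1 _ _ a b (m1 _ _ a b (m1 _ _ a b w0)))
      have hz : D (EE a b) (D (EE a b) (D (EE a b) (D (EE a b) f))) = 0 := by
        by_contra hne
        have h5 := kw1 p 3 σ D hD hk _ _ hne w4
        have h6 := Finset.single_le_sum (f := fun i : Fin p =>
          max ((fun i : Fin p => ((fun i : Fin p => ((fun i : Fin p => ((fun i : Fin p =>
            (0 : ℝ) + (if i = a then 1 else 0) - (if i = b then 1 else 0)) i) +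
            (if i = a then 1 else 0) - (if i = b then 1 else 0)) i) +
            (if i = a then 1 else 0) - (if i = b then 1 else 0)) i) +
            (if i = a then 1 else 0) - (if i = b then 1 else 0)) i) 0)
          (fun i _ => le_max_right _ _) (Finset.mem_univ a)
        have h7 := h6.trans h5
        simp only [if_true, if_neg hab] at h7
        norm_num at h7
      have hK := (mk6 p σ D hD a b hab f hf (hs _)).2 hz
      have hM := (mca p σ D C hD hC f hf).2 hs a b hab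
      have hE : ‖D (EE b a) f‖ ^ 2 = 6 * ‖f - σ.P {a, b} f‖ ^ 2 := by
        have h8 := inner_Kp hD a b f
        rw [hK, inner_smul_right] at h8
        have h9 : (inner ℂ f (f - σ.P {a, b} f) : ℂ) = ((‖f - σ.P {a, b} f‖ ^ 2 : ℝ) : ℂ) :=
          LOW.inner_one_sub_P σ {a, b} f
        rw [h9] at h8
        have h10 : ((6 * ‖f - σ.P {a, b} f‖ ^ 2 : ℝ) : ℂ) = ((‖D (EE b a) f‖ ^ 2 : ℝ) : ℂ) := by
          rw [← h8]
          push_cast
          ring
        exact (Complex.ofReal_injective h10).symm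
      rw [hE] at hM
      have h11 : dl p ≤ 2 / (p : ℝ) := (min_le_right _ _).trans (min_le_right _ _)
      have h12 : (1 + 2 / (p : ℝ)) * ‖f‖ ^ 2 ≤ ((p : ℝ) - 1) * ‖f - σ.P {a, b} f‖ ^ 2 := by
        have h13 : 1 + 2 / (p : ℝ) = (p + 2) / p := by
          rw [eq_div_iff hp0.ne', add_mul, one_mul, div_mul_cancel₀ _ hp0.ne']
        rw [h13, div_mul_eq_mul_div, div_le_iff₀ hp0]
        nlinarith [mul_le_mul_of_nonneg_right hC2 hfn.le]
      exact (mul_le_mul_of_nonneg_right (by linarith) hfn.le).trans h12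
    · -- `4 ≤ k`
      have hk4 : (4 : ℝ) ≤ k := by exact_mod_cast h4
      refine ⟨?_, fun a b hab => ?_⟩
      · have h5 : 2 * 4 * ((4 : ℝ) + p - 1) ≤ 2 * (k : ℝ) * (k + p - 1) :=
          mul_le_mul (by linarith) (by linarith) (by linarith) (by linarith)
        linarith
      · have h6 := kmb p k h4 σ hk f hf hs a b hab
        have h7 : dl p ≤ ((p : ℝ) - 2) / (5 * p) := min_le_left _ _
        have h8 : (1 + ((p : ℝ) - 2) / (5 * p)) * ‖f‖ ^ 2 ≤
            ((p : ℝ) - 1) * ‖f - σ.P {a, b} f‖ ^ 2 := by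
          have h9 : 1 + ((p : ℝ) - 2) / (5 * p) = (2 * (3 * p - 1)) / (5 * p) := by
            have h10 : (5 * (p : ℝ)) ≠ 0 := by positivity
            rw [eq_div_iff h10, add_mul, one_mul, div_mul_cancel₀ _ h10]
            ring
          rw [h9, div_mul_eq_mul_div, div_le_iff₀ (by positivity)]
          linarith
        exact (mul_le_mul_of_nonneg_right (by linarith) hfn.le).trans h8

end Pool.Agent.GRA.H83
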